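import Pool.Agent.SKg.CAr
import Pool.Agent.SKap.CBk

set_option autoImplicit false
set_option linter.all false

/-!
# C_bk : bookkeeping
-/

namespace Pool.Agent.SKg

open Cardinal Pool.Agent.SplK Pool.Agent.SKap

theorem C_bk' (K R : Type) [LinearOrder K] [Nonempty K] [Preorder R] (hK : Inac K) (hS : #(Stem K R) ≤ #K) :
    ∃ (C : Type) (_ : Inhabited C) (Δ : Type) (_ : LinearOrder Δ) (_ : WellFoundedLT Δ) (e : Δ)
      (bk : Δ → Set (Pre K R C Δ)),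
      (∀ m, (2 : Cardinal.{0}) ^ pl (2 ^ #K) m ≤ #C) ∧ (∀ ξ, ∃ n, #(bk ξ) ≤ pl (2 ^ #K) n) ∧
      ∀ (n : ℕ) (F : Set (Pre K R C Δ)), #F ≤ pl (2 ^ #K) n → (∀ p ∈ F, Sup e p) → ∃ ξ, ξ < e ∧ bk ξ = F ∧ ∀ p ∈ F, Sup ξ p := by
  classical
  obtain ⟨L, hL⟩ : ∃ L : Cardinal.{0}, ∀ n, pl (2 ^ #K) n ≤ L :=
    ⟨Cardinal.sum (fun n : ℕ => pl (2 ^ #K) n), fun n => Cardinal.le_sum (fun n : ℕ => pl (2 ^ #K) n) n⟩
  have hKL : #K ≤ L := (C_tle #K 0).le.trans (hL 0)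
  have hLinf : ℵ₀ ≤ L := hK.unc.le.trans hKL
  obtain ⟨μ, hμ⟩ : ∃ μ : Cardinal.{0}, μ = 2 ^ L := ⟨_, rfl⟩
  obtain ⟨δ, hδs⟩ : ∃ δ : Cardinal.{0}, δ = Order.succ μ := ⟨_, rfl⟩
  have hLμ : L < μ := hμ ▸ Cardinal.cantor L
  have hμδ : μ < δ := by rw [hδs]; exact Order.lt_succ μ
  have hμinf : ℵ₀ ≤ μ := hLinf.trans hLμ.le
  have hδinf : ℵ₀ ≤ δ := hμinf.trans hμδ.le
  have hδr : δ.IsRegular := by rw [hδs]; exact Cardinal.isRegular_succ hμinf
  let C : Type := Set L.out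
  have hC : #C = μ := by
    show #(Set L.out) = μ
    rw [Cardinal.mk_set, Cardinal.mk_out, hμ]
  let Δ₀ : Type := δ.ord.ToType
  have hΔ₀ : #Δ₀ = δ := by
    show #δ.ord.ToType = δ
    rw [Cardinal.mk_toType, Cardinal.card_ord]
  let Δ : Type := WithTop Δ₀
  have hΔ : #Δ ≤ δ := by
    have h1 : #(Option Δ₀) = #Δ₀ + 1 := Cardinal.mk_option
    show #(Option Δ₀) ≤ δ
    rw [h1, hΔ₀]
    exact Cardinal.add_le_of_le hδinf le_rfl (Cardinal.one_le_aleph0.trans hδinf)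
  have hpow : ∀ n, δ ^ pl (2 ^ #K) n ≤ δ := by
    intro n
    rw [hδs]
    refine hausdorff μ _ hμinf ((hL n).trans hLμ.le) ?_
    rw [hμ, ← Cardinal.power_mul]
    exact (Cardinal.power_le_power_left two_ne_zero
      (Cardinal.mul_le_of_le hLinf le_rfl (hL n))).trans (Order.le_succ _)
  have hKδ : #K ≤ δ := hKL.trans (hLμ.le.trans hμδ.le)
  have hpre : #(Pre K R C Δ) ≤ δ := by
    refine C_pre1 δ hδinf ?_ (hS.trans hKδ) (hC.le.trans hμδ.le) hΔ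
    exact (Cardinal.power_le_power_left (Cardinal.aleph0_pos.trans_le hδinf).ne' (C_tle #K 0).le).trans (hpow 0)
  let B : Type := {F : Set (Pre K R C Δ) // ∃ n, #F ≤ pl (2 ^ #K) n}
  have hB : #B ≤ δ := C_pre2 (Pre K R C Δ) (2 ^ #K) δ hδinf hpow hpre
  have hB0 : Nonempty B := ⟨⟨∅, 0, by simp⟩⟩
  obtain ⟨f, hf⟩ := C_fib δ hδinf B hB0 hB
  let bk : Δ → Set (Pre K R C Δ) := WithTop.recTopCoe ∅ (fun x => (f x).1)
  have hbk : ∀ x : Δ₀, bk (x : WithTop Δ₀) = (f x).1 := fun x => rfl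
  refine ⟨C, ⟨(∅ : Set L.out)⟩, Δ, inferInstance, inferInstance, (⊤ : WithTop Δ₀), bk, ?_, ?_, ?_⟩
  · intro m
    rw [hC, hμ]
    exact Cardinal.power_le_power_left two_ne_zero (hL m)
  · intro ξ
    induction ξ using WithTop.recTopCoe with
    | top => exact ⟨0, by show #(∅ : Set (Pre K R C Δ)) ≤ _; simp⟩
    | coe x => exact (f x).2
  · intro n F hF hsup
    let S : Set Δ₀ := ⋃ p : F, {x : Δ₀ | p.1.f (x : WithTop Δ₀) ≠ default}
    have hS1 : #S ≤ pl (2 ^ #K) n * #K := by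
      refine (Cardinal.mk_iUnion_le_sum_mk).trans ?_
      refine (Cardinal.sum_le_sum _ (fun _ => #K) (fun p => ?_)).trans ?_
      · refine le_trans ?_ p.1.small.le
        exact Cardinal.mk_preimage_of_injective (fun x : Δ₀ => (x : WithTop Δ₀))
          {η : Δ | p.1.f η ≠ default} WithTop.coe_injective
      · rw [Cardinal.sum_const']
        exact mul_le_mul_left hF #K
    have hS2 : #S < δ := by
      refine lt_of_le_of_lt (hS1.trans ?_) hμδ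
      exact Cardinal.mul_le_of_le hμinf ((hL n).trans hLμ.le) (hKL.trans hLμ.le)
    obtain ⟨ζ, hζ⟩ := cbk_bdd δ hδr S hS2
    obtain ⟨ξ, hξ, hfξ⟩ := hf ⟨F, n, hF⟩ ζ
    refine ⟨(ξ : WithTop Δ₀), WithTop.coe_lt_top ξ, ?_, ?_⟩
    · rw [hbk, hfξ]
    · intro p hp η hη
      induction η using WithTop.recTopCoe with
      | top => exact hsup p hp _ le_rfl
      | coe x =>
        by_contra hne
        have hx : x ∈ S := Set.mem_iUnion.mpr ⟨⟨p, hp⟩, hne⟩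
        have h1 := hζ x hx
        have h2 : ξ ≤ x := WithTop.coe_le_coe.mp hη
        exact absurd (h1.trans hξ) (not_lt.mpr h2)

end Pool.Agent.SKg
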