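import Pool.Agent.SKg.SX
import Pool.Agent.SKap.SRed
import Pool.Agent.SKap.SMeas
import Pool.Agent.SKap.SCodes

set_option autoImplicit false
set_option linter.all false

/-!
# S_step : the step theorem
-/

namespace Pool.Agent.SKg

open Cardinal Pool.Agent.SplK Pool.Agent.SKap

theorem S_step' {K R T C : Type} [LinearOrder K] [Preorder R] [Inhabited C] (hK : Inac K) (hR : #R ≤ #K)
    (H : HypH' K R) (P : RPos R T) (hc : P.Closed #K) (hcc : CCs K (Star P)) (n : ℕ) (F : Set T)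
    (hF : #F ≤ pl (2 ^ #K) n) (hC : ∀ m, (2 : Cardinal.{0}) ^ pl (2 ^ #K) m ≤ #C) :
    ∃ d : C → K → Set (R × T), CodesL K P.le d F := by
  obtain ⟨X, hFX, hX, hXC⟩ := S_X' hK hR P hc n F hF
  have hi := S_red P hcc X hXC
  have hcX : CCs K (Star (XPos P X hXC)) := by
    intro S hS
    have h1 : Anti (inc P X hXC '' S) := by
      rintro _ ⟨p, hp, rfl⟩ _ ⟨q, hq, rfl⟩ h
      rw [hS p hp q hq (hi.cpt _ _ h)]
    have h2 := hcc _ h1
    refine le_trans (le_of_eq ?_) h2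
    refine (Cardinal.mk_image_eq_of_injOn _ _ ?_).symm
    intro p hp q hq h
    have h3 : Cpt (inc P X hXC p) (inc P X hXC q) := ⟨inc P X hXC p, le_rfl, by rw [h]⟩
    exact hS p hp q hq (hi.cpt _ _ h3)
  obtain ⟨μ, hμ⟩ := H n X (XPos P X hXC) (XPos_closed P X hXC) hcX hX
  obtain ⟨U, hU⟩ := S_meas hK μ hμ
  have hinf : ℵ₀ ≤ pl (2 ^ #K) n := hK.unc.le.trans (C_tle _ n).le
  refine S_codes P X hXC hi U hU F hFX (le_trans ?_ (hC n))
  refine Cardinal.power_le_power_left two_ne_zero ?_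
  exact Cardinal.mul_le_of_le hinf (Cardinal.mul_le_of_le hinf (hR.trans (C_tle _ n).le) hX) (C_tle _ n).le

end Pool.Agent.SKg
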