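import Pool.Agent.SKap.ISys
import Pool.Agent.SKap.CStem
import Pool.Agent.SKg.SStep
import Pool.Agent.SKg.CBk
import Pool.Agent.SKg.FNs

set_option autoImplicit false
set_option linter.all false

/-!
# Block A without the generalized continuum hypothesis
-/

namespace Pool.Agent.SKg

open Cardinal Pool.Agent.SplK Pool.Agent.SKap

theorem blockA' : BlockA' := by
  intro K _ hK R _ _ hR hcc H
  haveI : Nonempty K := by
    rw [← mk_ne_zero_iff]
    exact (aleph0_pos.trans hK.unc).ne'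
  have hS := C_stem hK hR hcc
  obtain ⟨C, iC, Δ, iL, iW, e, bk, hC, hbk1, hbk2⟩ := C_bk' K R hK hS
  obtain ⟨S, hS'⟩ := I_sys hK hR hS bk (fun ξ P hc hccs => by
    obtain ⟨n, hn⟩ := hbk1 ξ
    refine S_step' hK hR H P hc hccs n {q | q.1 ∈ bk ξ} (le_trans ?_ hn) hC
    exact mk_le_of_injective (f := fun q : {q : PP K R C ξ | q.1 ∈ bk ξ} => (⟨q.1.1, q.2⟩ : bk ξ))
      (fun q q' h => by
        have h1 : q.1.1 = q'.1.1 := congrArg (fun z : bk ξ => z.1) h
        exact Subtype.ext (Subtype.ext h1)))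
  have hB := I_below hK bk S e (fun η _ => hS' η)
  obtain ⟨P, hP, -⟩ := I_pos1 hK bk S e hB
  have hc := I_cc hK hR hS bk S e hB P hP
  exact ⟨PP K R C e, P, I_closed hK bk S e hB P hP, hc, F_ns' hK bk S hS' e hbk2 P hP hc⟩

end Pool.Agent.SKg
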