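import Pool.Agent.SKg.GDefs
import Pool.Agent.SKap.CGch

set_option autoImplicit false
set_option linter.all false

/-!
# Cardinal arithmetic: the theorem of Hausdorff
-/

namespace Pool.Agent.SKg

open Cardinal Pool.Agent.SplK Pool.Agent.SKap

theorem hd_bdd (δ : Cardinal.{0}) (hδ : δ.IsRegular) (S : Set δ.ord.ToType) (hS : #S < δ) :
    ∃ ζ, ∀ x ∈ S, x < ζ := by
  rw [← not_isCofinal_iff]
  intro h
  have h1 := Order.cof_le h
  rw [Ordinal.cof_toType, hδ.cof_ord] at h1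
  exact absurd hS (not_lt.mpr h1)

/-- The theorem of Hausdorff. -/
theorem hausdorff (μ θ : Cardinal.{0}) (hμ : ℵ₀ ≤ μ) (hθ : θ ≤ μ) (h : μ ^ θ ≤ Order.succ μ) :
    (Order.succ μ) ^ θ ≤ Order.succ μ := by
  obtain ⟨δ, hδ⟩ : ∃ δ : Cardinal.{0}, δ = Order.succ μ := ⟨_, rfl⟩
  have hδr : δ.IsRegular := by rw [hδ]; exact Cardinal.isRegular_succ hμ
  rw [← hδ] at h ⊢
  have hδ0 : ℵ₀ ≤ δ := hδr.aleph0_le
  have hlt : θ < δ := by rw [hδ]; exact Order.lt_succ_iff.2 hθ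
  let D : Type := δ.ord.ToType
  have hD : #D = δ := by
    show #δ.ord.ToType = δ
    rw [Cardinal.mk_toType, Cardinal.card_ord]
  let Th : Type := θ.out
  have hTh : #Th = θ := Cardinal.mk_out θ
  have e1 : δ ^ θ = #(Th → D) := by
    rw [← Cardinal.power_def, hD, hTh]
  rw [e1]
  have hb : ∀ f : Th → D, ∃ ζ, ∀ t, f t < ζ := by
    intro f
    obtain ⟨ζ, hζ⟩ := hd_bdd δ hδr (Set.range f) (Cardinal.mk_range_le.trans_lt (by rw [hTh]; exact hlt))
    exact ⟨ζ, fun t => hζ _ ⟨t, rfl⟩⟩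
  choose b hb using hb
  have h2 : #(Σ ζ : D, (Th → Set.Iio ζ)) ≤ δ := by
    rw [mk_sigma]
    refine le_trans (sum_le_sum _ (fun _ => δ) fun ζ => ?_) ?_
    · rw [← Cardinal.power_def, hTh]
      refine le_trans (Cardinal.power_le_power_right ?_) h
      have h3 : #(Set.Iio ζ) < δ := Cardinal.mk_Iio_ord_toType ζ
      exact Order.lt_succ_iff.1 (h3.trans_le hδ.le)
    · rw [sum_const', hD]
      exact (mul_eq_self hδ0).le
  refine le_trans ?_ h2
  refine mk_le_of_injective (f := fun f : Th → D => (⟨b f, fun t => ⟨f t, hb f t⟩⟩ : Σ ζ : D, (Th → Set.Iio ζ))) ?_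
  intro f f' hff
  have h3 : ∀ z z' : (Σ ζ : D, (Th → Set.Iio ζ)), z = z' → ∀ t, (z.2 t).1 = (z'.2 t).1 := by
    rintro z z' rfl t
    rfl
  funext t
  exact h3 _ _ hff t

theorem C_tle (κ : Cardinal.{0}) (n : ℕ) : κ < pl (2 ^ κ) n := (Cardinal.cantor κ).trans_le (C_ple _ n)

theorem C_tpow (κ : Cardinal.{0}) (hκ : ℵ₀ ≤ κ) (n : ℕ) : (pl (2 ^ κ) n) ^ κ ≤ pl (2 ^ κ) n := by
  induction n with
  | zero =>
    rw [pl_zero, ← Cardinal.power_mul, mul_eq_self hκ]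
  | succ n ih =>
    rw [pl_succ]
    exact hausdorff _ _ (hκ.trans (C_tle κ n).le) (C_tle κ n).le (ih.trans (Order.le_succ _))

end Pool.Agent.SKg
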