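import Pool.Agent.SKap.ADefs

set_option autoImplicit false
set_option linter.all false

/-!
# Block A without the generalized continuum hypothesis: definitions
-/

namespace Pool.Agent.SKg

open Cardinal Pool.Agent.SplK Pool.Agent.SKap

/-- `R` forces that `K` is measurable after every `#K`-directed closed forcing with the `#K⁺`-chain condition of size
less than `(2 ^ #K)^{+ω}`. -/
def HypH' (K R : Type) [LinearOrder K] [Preorder R] : Prop :=
  ∀ (n : ℕ) (T : Type) (P : RPos R T), P.Closed #K → CCs K (Star P) → #T ≤ pl (2 ^ #K) n → ∃ μ, BMeas K (Star P) μ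

/-- `A` forces that no family of at most `(2 ^ #K)^{+n}` subsets of `K` is splitting. -/
def NS' (K A : Type) [LinearOrder K] [Preorder A] : Prop :=
  ∀ (n : ℕ) (I : Type), #I ≤ pl (2 ^ #K) n → ∀ (x : I → K → Set A) (p : A), ∃ q ≤ p, ∃ B : K → Set A,
    (∀ a, Fo {E | ∃ b, a < b ∧ E ∈ B b} q) ∧
    ∀ i, ∀ q' ≤ q, ∃ q'' ≤ q', ∃ a, (∀ b, a < b → ∀ E ≤ q'', (∃ D ∈ B b, E ≤ D) → Fo (x i b) E) ∨
      (∀ b, a < b → ∀ E ≤ q'', (∃ D ∈ B b, E ≤ D) → Ic (x i b) E)

/-- The result of block A. -/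
def BlockA' : Prop := ∀ (K : Type) [LinearOrder K], Inac K → ∀ (R : Type) [Preorder R] [OrderTop R],
  #R ≤ #K → (∀ S : Set R, Anti S → #S < #K) → HypH' K R →
    ∃ (T : Type) (P : RPos R T), P.Closed #K ∧ CCs K (Star P) ∧ NS' K (Star P)

end Pool.Agent.SKg
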