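import Pool.Agent.SKg.CAr
import Pool.Agent.SKap.SX

set_option autoImplicit false
set_option linter.all false

/-!
# S_X : the small suborder
-/

namespace Pool.Agent.SKg

open Cardinal Pool.Agent.SplK Pool.Agent.SKap

theorem S_X' {K R T : Type} [LinearOrder K] [Preorder R] (hK : Inac K) (hR : #R ≤ #K) (P : RPos R T)
    (hc : P.Closed #K) (n : ℕ) (F : Set T) (hF : #F ≤ pl (2 ^ #K) n) :
    ∃ X : Set T, F ⊆ X ∧ #X ≤ pl (2 ^ #K) n ∧ XC K P X := by
  have hκ : ℵ₀ ≤ #K := hK.unc.le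
  have h2 : 2 ^ #K ≤ pl (2 ^ #K) n := by
    exact C_ple _ n
  have hreg : (Order.succ #K).IsRegular := Cardinal.isRegular_succ hκ
  obtain ⟨X, hX0, hX1, hX2⟩ := S_clos (T := T) (Order.succ #K) (pl (2 ^ #K) n) hreg
    (Order.succ_le_of_lt (C_tle _ n))
    (by
      intro c hc
      have h0 : pl (2 ^ #K) n ≠ 0 := by
        have : ℵ₀ ≤ pl (2 ^ #K) n := hκ.trans (C_tle _ _).le
        exact (Cardinal.aleph0_pos.trans_le this).ne'
      exact (Cardinal.power_le_power_left h0 (Order.lt_succ_iff.1 hc)).trans (C_tpow #K hκ n))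
    (sx_F P)
    (fun a ha => sx_card P a #K _ hκ h2 hR (Order.lt_succ_iff.1 ha)) F
    hF
  have hlt : ∀ c : Cardinal.{0}, c ≤ #K → c < Order.succ #K := fun c hc => Order.lt_succ_iff.2 hc
  refine ⟨X, hX0, hX1, ?_, ?_, ?_, ?_, ?_⟩
  · exact hX2 ∅ (Set.empty_subset _) (hlt _ (by rw [Cardinal.mk_emptyCollection]; exact zero_le')) (sx_top P ∅)
  · intro b hb t ht t' ht'
    have ha : ({t, t'} : Set T) ⊆ X := by
      intro x hx
      rcases hx with rfl | hx
      · exact ht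
      · rw [Set.mem_singleton_iff.1 hx]; exact ht'
    have hsub := hX2 {t, t'} ha (hlt _ ((Cardinal.lt_aleph0_of_finite _).le.trans hκ))
    refine ⟨sx_f2 P {t, t'} (b, ⟨t, Or.inl rfl⟩, ⟨t', Or.inr rfl⟩), hsub (sx_m2 P _ _), ?_⟩
    unfold sx_f2
    rw [dif_pos hb]
    exact Classical.choose_spec (P.mix b hb t t')
  · intro ι f r hι hf hd
    have ha : Set.range f ⊆ X := by
      rintro _ ⟨i, rfl⟩
      exact hf i
    have hr : #(Set.range f) < #K := Cardinal.mk_range_le.trans_lt hι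
    have hsub := hX2 (Set.range f) ha (hlt _ hr.le)
    have hex : ∃ t, ∀ i : (Set.univ : Set (Set.range f)), P.le r t (i.1.1) := by
      refine hc (Set.univ : Set (Set.range f)) (fun i => i.1.1) r (by rw [Cardinal.mk_univ]; exact hr) ?_
      rintro ⟨⟨_, i, rfl⟩, -⟩ ⟨⟨_, j, rfl⟩, -⟩ r' hr'
      obtain ⟨r'', h1, k, h2⟩ := hd i j r' hr'
      exact ⟨r'', h1, ⟨⟨f k, k, rfl⟩, trivial⟩, h2⟩
    refine ⟨sx_f3 P (Set.range f) (r, Set.univ), hsub (sx_m3 P _ _), ?_⟩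
    unfold sx_f3
    rw [dif_pos hex]
    intro i
    exact Classical.choose_spec hex ⟨⟨f i, i, rfl⟩, trivial⟩
  · intro s t hs ht hst
    have ha : ({s.t, t.t} : Set T) ⊆ X := by
      intro x hx
      rcases hx with rfl | hx
      · exact hs
      · rw [Set.mem_singleton_iff.1 hx]; exact ht
    have hsub := hX2 {s.t, t.t} ha (hlt _ ((Cardinal.lt_aleph0_of_finite _).le.trans hκ))
    have hm := hsub (sx_m4 P {s.t, t.t} ((s.r, ⟨s.t, Or.inl rfl⟩), (t.r, ⟨t.t, Or.inr rfl⟩)))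
    have hex : ∃ u : Star P, u ≤ (⟨s.r, s.t⟩ : Star P) ∧ u ≤ (⟨t.r, t.t⟩ : Star P) := hst
    refine ⟨Classical.choose hex, ?_, Classical.choose_spec hex⟩
    unfold sx_f4 at hm
    rw [dif_pos hex] at hm
    exact hm
  · intro A hA hAX hex
    have ha : Star.t '' A ⊆ X := by
      rintro _ ⟨s, hs, rfl⟩
      exact hAX s hs
    have hsub := hX2 (Star.t '' A) ha (hlt _ (Cardinal.mk_image_le.trans hA))
    have hm := hsub (sx_m5 P (Star.t '' A) {x | (⟨x.1, x.2.1⟩ : Star P) ∈ A})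
    have hex' : ∃ t : Star P, ∀ s ∈ {x : R × (Star.t '' A : Set T) | (⟨x.1, x.2.1⟩ : Star P) ∈ A},
        ¬ Cpt (⟨s.1, s.2.1⟩ : Star P) t := by
      obtain ⟨t, ht⟩ := hex
      exact ⟨t, fun s hs => ht _ hs⟩
    unfold sx_f5 at hm
    rw [dif_pos hex'] at hm
    refine ⟨Classical.choose hex', hm, fun s hs => ?_⟩
    exact Classical.choose_spec hex' (s.r, ⟨s.t, s, hs, rfl⟩) hs

end Pool.Agent.SKg
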